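import Pool.Agent.Helper95.HS.GoalsA
import Pool.Agent.Helper62.SP.FINV
import Pool.Agent.Helper10.Lin.PhDiv

/-! # Packet HS-MOMV: the volume depends only on the class -/

open Complex Metric Set Filter Topology MeasureTheory
open scoped ContDiff ComplexConjugate ComplexOrder Manifold Matrix

namespace Pool.Agent.Helper8.HS

open Pool.Agent.Helper95.Lin Pool.Agent.Helper16.Abund Pool.Agent.Helper10.SP
  Pool.Agent.Helper57.HS Pool.Agent.Helper95.HS
open Pool.Agent.Helper62.SP (cd_congr cdb_congr lin_exp Jm det_Jm)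

universe u v

theorem det_row {m : ℕ} (Z : Matrix (Fin m) (Fin m) ℂ) (l : Fin m) (b : Fin m → ℂ) :
    (Z.updateRow l b).det = ∑ j, Z.adjugate j l * b j := by
  rw [← Matrix.det_transpose, ← Matrix.updateCol_transpose, ← Matrix.cramer_apply,
    Matrix.cramer_eq_adjugate_mulVec, ← Matrix.adjugate_transpose]
  rfl

theorem det_deriv {m : ℕ} (Y L : Matrix (Fin m) (Fin m) ℂ) (t : ℝ) :
    HasDerivAt (fun t : ℝ => (Y + (t : ℂ) • L).det)
      (Matrix.trace ((Y + (t : ℂ) • L).adjugate * L)) t := by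
  have h1 : ∀ A : Matrix (Fin m) (Fin m) ℂ, A.det =
      ∑ σ : Equiv.Perm (Fin m), ((Equiv.Perm.sign σ : ℤ) : ℂ) * ∏ i, A i (σ i) := by
    intro A
    rw [← Matrix.det_transpose, Matrix.det_apply']
    rfl
  have h0 : ∀ i j, HasDerivAt (fun t : ℝ => (Y + (t : ℂ) • L) i j) (L i j) t := by
    intro i j
    simp only [Matrix.add_apply, Matrix.smul_apply, smul_eq_mul]
    have := ((Complex.ofRealCLM.hasDerivAt (x := t)).mul_const (L i j)).const_add (Y i j)
    simpa using this
  set Z := Y + (t : ℂ) • L with hZ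
  have h3 : HasDerivAt (fun t : ℝ => (Y + (t : ℂ) • L).det)
      (∑ σ : Equiv.Perm (Fin m), ((Equiv.Perm.sign σ : ℤ) : ℂ) *
        ∑ l, (∏ i ∈ Finset.univ.erase l, Z i (σ i)) • L l (σ l)) t := by
    have e : (fun t : ℝ => (Y + (t : ℂ) • L).det) = fun t : ℝ => ∑ σ : Equiv.Perm (Fin m),
        ((Equiv.Perm.sign σ : ℤ) : ℂ) * ∏ i, (Y + (t : ℂ) • L) i (σ i) := by
      funext y
      exact h1 _
    rw [e]
    refine HasDerivAt.fun_sum fun σ _ => ?_
    exact (HasDerivAt.fun_finsetProd fun i _ => h0 i (σ i)).const_mul _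
  have h4 : Matrix.trace (Z.adjugate * L) = ∑ l, (Z.updateRow l (L l)).det := by
    simp only [det_row, Matrix.trace, Matrix.diag_apply, Matrix.mul_apply]
    rw [Finset.sum_comm]
  rw [h4]
  refine h3.congr_deriv ?_
  simp only [h1]
  rw [Finset.sum_comm]
  refine Finset.sum_congr rfl fun σ _ => ?_
  rw [Finset.mul_sum]
  refine Finset.sum_congr rfl fun l _ => ?_
  refine congrArg _ ?_
  rw [← Finset.mul_prod_erase Finset.univ _ (Finset.mem_univ l), smul_eq_mul, mul_comm]
  simp only [Matrix.updateRow_self]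
  refine congrArg _ (Finset.prod_congr rfl fun i hi => ?_)
  rw [Matrix.updateRow_ne (Finset.ne_of_mem_erase hi)]

theorem cd_sum {n : ℕ} {W : Set (Cn n)} (hWo : IsOpen W) {ι : Type*}
    (s : Finset ι) (f : ι → Cn n → ℂ) (hf : ∀ j ∈ s, ContDiffOn ℝ ∞ (f j) W) (l : Fin n)
    {x : Cn n} (hx : x ∈ W) :
    cd l (fun y => ∑ j ∈ s, f j y) x = ∑ j ∈ s, cd l (f j) x := by
  classical
  unfold cd
  have hd : ∀ j ∈ s, DifferentiableAt ℝ (f j) x := fun j hj =>
    ((hf j hj).contDiffAt (hWo.mem_nhds hx)).differentiableAt (by simp)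
  rw [fderiv_fun_sum hd]
  simp only [sum_apply, Finset.mul_sum, Finset.sum_sub_distrib]

theorem hermi_single {n : ℕ} (A : Matrix (Fin n) (Fin n) ℂ) (i j : Fin n) :
    hermi A (Pi.single i 1) (Pi.single j 1) = A i j := by
  unfold hermi
  rw [Finset.sum_eq_single i, Finset.sum_eq_single j]
  · simp
  · intro b _ hb
    simp [hb]
  · intro h
    exact absurd (Finset.mem_univ _) h
  · intro b _ hb
    refine Finset.sum_eq_zero fun c _ => ?_
    simp [Pi.single_apply, hb]
  · intro h
    exact absurd (Finset.mem_univ _) h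

/-- The Levi matrix of a multiple. -/
theorem LM_smul (hW : S_WIRT) {n : ℕ} {W : Set (Cn n)} (hWo : IsOpen W) {Φ : Cn n → ℝ}
    (h1 : ContDiffOn ℝ ∞ Φ W) (t : ℝ) {x : Cn n} (hx : x ∈ W) :
    LM (fun y => t * Φ y) x = (t : ℂ) • LM Φ x := by
  have c1 : ContDiffOn ℝ ∞ (fun y => (Φ y : ℂ)) W :=
    Complex.ofRealCLM.contDiff.comp_contDiffOn h1
  have cdc : ∀ (l : Fin n) (c : ℂ) (y : Cn n), cd l (fun _ => c) y = 0 := by
    intro l c y
    simp [cd]
  have cdbc : ∀ (l : Fin n) (c : ℂ) (y : Cn n), cdb l (fun _ => c) y = 0 := by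
    intro l c y
    simp [cdb]
  ext j k
  simp only [LM, Matrix.of_apply, Matrix.smul_apply, smul_eq_mul]
  have e1 : cdb k (fun y => ((t * Φ y : ℝ) : ℂ)) =ᶠ[𝓝 x]
      fun y => (t : ℂ) * cdb k (fun y => (Φ y : ℂ)) y := by
    filter_upwards [hWo.mem_nhds hx] with y hy
    have := ((hW W hWo (fun _ => (t : ℂ)) _ contDiffOn_const c1).2.2.1 k y hy).2
    rw [cdbc, mul_zero, add_zero] at this
    rw [← this]
    refine cdb_congr k (Eventually.of_forall fun z => ?_)
    push_cast
    rfl
  rw [cd_congr j e1]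
  have s1 := ((hW W hWo _ _ c1 c1).1 k).2
  have := ((hW W hWo (fun _ => (t : ℂ)) _ contDiffOn_const s1).2.2.1 j x hx).1
  rw [cdc, mul_zero, add_zero] at this
  exact this

/-- The divergence of `g ᵥ* adj Q`. -/
theorem divQ (hW : S_WIRT) (hC : S_WCH) (hD : S_DIVC.{u}) {n : ℕ} (T : Set (Cn n)) {G : Type u}
    [Group G] (R : G → Cn n → Cn n → Prop) (H : Cn n → Matrix (Fin n) (Fin n) ℂ)
    (hK : KEt T R H) (κ : Cn n → ℝ) (hκ : IsPUE T R κ) (Q : Cn n → Matrix (Fin n) (Fin n) ℂ)
    (w : Cn n → ℝ) (hQ : CHF Q T) (hQi : InvH R Q) (hw : InvF T R w) :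
    ∫ x in T, (κ x : ℂ) * Matrix.trace ((Q x).adjugate * LM w x) = 0 := by
  have hTo : IsOpen T := hK.et.isOpen
  have c1 : ContDiffOn ℝ ∞ (fun y => (w y : ℂ)) T :=
    Complex.ofRealCLM.contDiff.comp_contDiffOn hw.1
  set g : Cn n → Fin n → ℂ := fun x k => cdb k (fun y => (w y : ℂ)) x with hg
  have sg : ∀ k, ContDiffOn ℝ ∞ (fun x => g x k) T := fun k => ((hW T hTo _ _ c1 c1).1 k).2
  have sa := Pool.Agent.Helper10.Lin.adj_contDiffOn T Q hQ.smooth
  set X : Cn n → Cn n := fun x => (g x) ᵥ* (Q x).adjugate with hX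
  have Xe : ∀ x j, X x j = ∑ m, g x m * (Q x).adjugate m j := by
    intro x j
    rfl
  have sX : ContDiffOn ℝ ∞ X T := by
    rw [contDiffOn_pi]
    intro j
    simp only [Xe]
    exact ContDiffOn.sum fun m _ => (sg m).mul (sa m j)
  have key := hD T R H hK κ hκ X sX ?_
  · rw [← key]
    refine setIntegral_congr_fun hTo.measurableSet fun x hx => ?_
    refine congrArg _ ?_
    have hMx : T ∈ 𝓝 x := hTo.mem_nhds hx
    have dv := Pool.Agent.Helper10.Lin.div_adj Q
      (fun i j => ((hQ.smooth i j).contDiffAt hMx).differentiableAt (by simp)) (hQ.closed x hx)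
    have e1 : ∀ k, cd k (fun y => X y k) x = ∑ m, (g x m * cd k (fun y => (Q y).adjugate m k) x +
        (Q x).adjugate m k * LM w x k m) := by
      intro k
      simp only [Xe]
      rw [cd_sum hTo Finset.univ (fun m y => g y m * (Q y).adjugate m k)
        (fun m _ => (sg m).mul (sa m k)) k hx]
      refine Finset.sum_congr rfl fun m _ => ?_
      exact ((hW T hTo _ _ (sg m) (sa m k)).2.2.1 k x hx).1
    rw [Finset.sum_congr rfl fun k _ => e1 k]
    simp only [Finset.sum_add_distrib]
    rw [Finset.sum_comm (f := fun k m => g x m * cd k (fun y => (Q y).adjugate m k) x)]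
    have e2 : ∑ m, ∑ k, g x m * cd k (fun y => (Q y).adjugate m k) x = 0 := by
      refine Finset.sum_eq_zero fun m _ => ?_
      rw [← Finset.mul_sum, dv m, mul_zero]
    rw [e2, zero_add, Finset.sum_comm]
    rfl
  · intro U τ hτ x hx
    obtain ⟨hUo, hτd, γ, hγ⟩ := hτ
    have hmaps : MapsTo τ U T := fun y hy => (hK.et.mem γ y (τ y) (hγ y hy)).2
    have hUT : U ⊆ T := fun y hy => (hK.et.mem γ y (τ y) (hγ y hy)).1
    set J := Jm τ x with hJ
    have hQx : Q x = J * Q (τ x) * Jᴴ := by
      ext i j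
      have := hQi U τ ⟨hUo, hτd, γ, hγ⟩ x hx (Pi.single i 1) (Pi.single j 1)
      rw [hermi_single] at this
      rw [← this]
      unfold hermi
      simp only [Matrix.mul_apply, Finset.sum_mul, Matrix.conjTranspose_apply]
      rw [Finset.sum_comm]
      refine Finset.sum_congr rfl fun a _ => Finset.sum_congr rfl fun b _ => ?_
      simp only [hJ, Jm, Matrix.of_apply, Complex.star_def]
      ring
    have hgx : g x = (g (τ x)) ᵥ* Jᴴ := by
      funext k
      have h1 := (((hC.1 T U hTo hUo τ hτd hmaps).1 (fun y => (w y : ℂ)) c1 k x hx)).2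
      have h2 : cdb k ((fun y => (w y : ℂ)) ∘ τ) x = g x k := by
        refine cdb_congr k ?_
        filter_upwards [hUo.mem_nhds hx] with y hy
        simp only [Function.comp_apply]
        rw [hw.2 γ y (τ y) (hγ y hy)]
      rw [← h2, h1]
      simp only [Matrix.vecMul, dotProduct, Matrix.conjTranspose_apply]
      refine Finset.sum_congr rfl fun q _ => ?_
      simp only [hJ, Jm, Matrix.of_apply, Complex.star_def, hg]
      ring
    have hlin : ∀ v : Cn n, fderiv ℂ τ x v = v ᵥ* J := by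
      intro v
      funext p
      rw [lin_exp]
      rfl
    have hadj : (Q x).adjugate = Jᴴ.adjugate * ((Q (τ x)).adjugate * J.adjugate) := by
      rw [hQx, Matrix.adjugate_mul_distrib, Matrix.adjugate_mul_distrib]
    rw [hlin, det_Jm, hX]
    simp only
    rw [hadj, hgx, Matrix.vecMul_vecMul, Matrix.vecMul_vecMul]
    have e3 : Jᴴ * (Jᴴ.adjugate * ((Q (τ x)).adjugate * J.adjugate) * J) =
        ((‖J.det‖ ^ 2 : ℝ) : ℂ) • (Q (τ x)).adjugate := by
      have a1 : Jᴴ * (Jᴴ.adjugate * ((Q (τ x)).adjugate * J.adjugate) * J) =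
          (Jᴴ * Jᴴ.adjugate) * (Q (τ x)).adjugate * (J.adjugate * J) := by
        simp only [Matrix.mul_assoc]
      rw [a1, Matrix.mul_adjugate, Matrix.adjugate_mul, Matrix.det_conjTranspose]
      rw [Matrix.smul_mul, Matrix.one_mul, Matrix.mul_smul, Matrix.mul_one, smul_smul]
      refine congrArg (fun c : ℂ => c • (Q (τ x)).adjugate) ?_
      rw [Complex.star_def, Complex.mul_conj, Complex.normSq_eq_norm_sq]
    rw [e3, Matrix.vecMul_smul]

theorem cont_tr {α : Type*} [TopologicalSpace α] {n : ℕ} {S : Set α}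
    {A B : α → Matrix (Fin n) (Fin n) ℂ} (hA : ContinuousOn A S) (hB : ContinuousOn B S) :
    ContinuousOn (fun p => Matrix.trace ((A p).adjugate * B p)) S := by
  have h1 : Continuous (fun x : S => A x) := continuousOn_iff_continuous_restrict.1 hA
  have h2 : Continuous (fun x : S => B x) := continuousOn_iff_continuous_restrict.1 hB
  have h3 : Continuous (fun x : S => Matrix.trace ((A x).adjugate * B x)) :=
    (h1.matrix_adjugate.matrix_mul h2).matrix_trace
  exact continuousOn_iff_continuous_restrict.2 h3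

theorem cont_det {α : Type*} [TopologicalSpace α] {n : ℕ} {S : Set α}
    {A : α → Matrix (Fin n) (Fin n) ℂ} (hA : ContinuousOn A S) :
    ContinuousOn (fun p => (A p).det) S := by
  have h1 : Continuous (fun x : S => A x) := continuousOn_iff_continuous_restrict.1 hA
  have h3 : Continuous (fun x : S => (A x).det) := h1.matrix_det
  exact continuousOn_iff_continuous_restrict.2 h3

/-- **MOMV** -/
theorem momv (hWIRT : S_WIRT) (hLMF : S_LMF) (hWCH : S_WCH) (hDIVC : S_DIVC.{u})
    (hKETP : S_KETP.{u}) : S_MOMV.{u} := by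
  intro n T G _ R H hK κ hκ Y w hY hYi hw
  have hTo : IsOpen T := hK.et.isOpen
  set L := LM w with hL
  set K := tsupport κ with hKd
  have hKc : IsCompact K := hκ.test.2.1
  have hKT : K ⊆ T := hκ.test.2.2
  have hκ0 : ∀ x, x ∉ K → κ x = 0 := fun x hx => image_eq_zero_of_notMem_tsupport hx
  have sL : ∀ j k, ContDiffOn ℝ ∞ (fun x => L x j k) T := (hLMF T hTo w hw.1).1
  have hLt : ∀ t : ℝ, ∀ x ∈ T, pert Y (fun y => t * w y) x = Y x + (t : ℂ) • L x := by
    intro t x hx
    unfold pert
    rw [LM_smul hWIRT hTo hw.1 t hx]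
  have hA : ∀ t : ℝ, ∫ x in T, (κ x : ℂ) *
      Matrix.trace ((Y x + (t : ℂ) • L x).adjugate * L x) = 0 := by
    intro t
    have hwt : InvF T R (fun y => t * w y) := by
      exact ⟨contDiffOn_const.mul hw.1, fun γ x y h => congrArg (fun r => t * r) (hw.2 γ x y h)⟩
    obtain ⟨b1, b2, -⟩ := (hKETP T R hK.et).1 Y _ hY hYi hwt
    rw [← divQ hWIRT hWCH hDIVC T R H hK κ hκ _ w b1 b2 hw]
    refine setIntegral_congr_fun hTo.measurableSet fun x hx => ?_
    exact congrArg (fun A : Matrix (Fin n) (Fin n) ℂ => (κ x : ℂ) *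
      Matrix.trace (A.adjugate * L x)) (hLt t x hx).symm
  -- continuity
  have cY : ContinuousOn Y T := by
    refine continuousOn_pi.2 fun i => continuousOn_pi.2 fun j => (hY.smooth i j).continuousOn
  have cL : ContinuousOn L T := by
    refine continuousOn_pi.2 fun i => continuousOn_pi.2 fun j => (sL i j).continuousOn
  have cZ : ContinuousOn (fun p : ℝ × Cn n => Y p.2 + (p.1 : ℂ) • L p.2) (univ ×ˢ T) := by
    have m : MapsTo (fun p : ℝ × Cn n => p.2) (univ ×ˢ T) T := fun p hp => hp.2
    exact (cY.comp continuousOn_snd m).add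
      ((Complex.continuous_ofReal.comp_continuousOn continuousOn_fst).smul
        (cL.comp continuousOn_snd m))
  have cκ : Continuous κ := hκ.test.1.continuous
  have cF : ContinuousOn (fun p : ℝ × Cn n => κ p.2 * (Y p.2 + (p.1 : ℂ) • L p.2).det.re)
      (univ ×ˢ T) := by
    exact (cκ.comp_continuousOn continuousOn_snd).mul
      (Complex.continuous_re.comp_continuousOn (cont_det cZ))
  have cF' : ContinuousOn (fun p : ℝ × Cn n =>
      κ p.2 * (Matrix.trace ((Y p.2 + (p.1 : ℂ) • L p.2).adjugate * L p.2)).re)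
      (univ ×ˢ T) := by
    have m : MapsTo (fun p : ℝ × Cn n => p.2) (univ ×ˢ T) T := fun p hp => hp.2
    have cB : ContinuousOn (fun p : ℝ × Cn n => L p.2) (univ ×ˢ T) := cL.comp continuousOn_snd m
    exact (cκ.comp_continuousOn continuousOn_snd).mul
      (Complex.continuous_re.comp_continuousOn (cont_tr cZ cB))
  have cslice : ∀ (f : ℝ × Cn n → ℝ), ContinuousOn f (univ ×ˢ T) → ∀ t : ℝ,
      ContinuousOn (fun x => f (t, x)) T := by
    intro f hf t
    have h1 : ContinuousOn (fun x : Cn n => (t, x)) T :=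
      (continuous_const.prodMk continuous_id).continuousOn
    exact hf.comp h1 fun x hx => ⟨mem_univ _, hx⟩
  have bdd : ∀ (f : ℝ × Cn n → ℝ), ContinuousOn f (univ ×ˢ T) → ∀ t : ℝ,
      ∃ M, ∀ s ∈ closedBall t 1, ∀ x ∈ K, ‖f (s, x)‖ ≤ M := by
    intro f hf t
    obtain ⟨M, hM⟩ := ((isCompact_closedBall t 1).prod hKc).exists_bound_of_continuousOn
      (hf.mono (prod_mono (subset_univ _) hKT))
    exact ⟨M, fun s hs x hx => hM (s, x) ⟨hs, hx⟩⟩
  have ibd : ∀ M : ℝ, Integrable (K.indicator fun _ : Cn n => M) (volume.restrict T) := by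
    intro M
    have h1 : IntegrableOn (fun _ : Cn n => M) K :=
      integrableOn_const (hKc.measure_lt_top.ne)
    exact (h1.integrable_indicator hKc.isClosed.measurableSet).restrict
  have bnd : ∀ (f : ℝ × Cn n → ℝ), (∀ t x, x ∉ K → f (t, x) = 0) → ∀ t M,
      (∀ s ∈ closedBall t 1, ∀ x ∈ K, ‖f (s, x)‖ ≤ M) → ∀ x, ∀ s ∈ closedBall t 1,
      ‖f (s, x)‖ ≤ K.indicator (fun _ => M) x := by
    intro f hf t M hM x s hs
    by_cases hx : x ∈ K
    · rw [indicator_of_mem hx]
      exact hM s hs x hx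
    · rw [indicator_of_notMem hx, hf s x hx, norm_zero]
  have hder : ∀ t : ℝ, HasDerivAt (fun t : ℝ => ∫ x in T, κ x * (Y x + (t : ℂ) • L x).det.re)
      0 t := by
    intro t
    obtain ⟨M, hM⟩ := bdd _ cF t
    obtain ⟨M', hM'⟩ := bdd _ cF' t
    have z1 : ∀ (t : ℝ) x, x ∉ K → κ x * (Y x + (t : ℂ) • L x).det.re = 0 := fun t x hx => by
      rw [hκ0 x hx, zero_mul]
    have z2 : ∀ (t : ℝ) x, x ∉ K →
        κ x * (Matrix.trace ((Y x + (t : ℂ) • L x).adjugate * L x)).re = 0 := fun t x hx => by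
      rw [hκ0 x hx, zero_mul]
    have hmain := hasDerivAt_integral_of_dominated_loc_of_deriv_le
      (μ := volume.restrict T) (x₀ := t) (s := closedBall t 1)
      (F := fun (t : ℝ) x => κ x * (Y x + (t : ℂ) • L x).det.re)
      (F' := fun (t : ℝ) x => κ x * (Matrix.trace ((Y x + (t : ℂ) • L x).adjugate * L x)).re)
      (bound := K.indicator fun _ => M')
      (closedBall_mem_nhds t one_pos)
      (Eventually.of_forall fun s => (cslice _ cF s).aestronglyMeasurable hTo.measurableSet)
      ((ibd M).mono' ((cslice _ cF t).aestronglyMeasurable hTo.measurableSet)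
        (Eventually.of_forall fun x =>
          bnd (fun p => κ p.2 * (Y p.2 + (p.1 : ℂ) • L p.2).det.re) z1 t M hM x t
            (mem_closedBall_self zero_le_one)))
      ((cslice _ cF' t).aestronglyMeasurable hTo.measurableSet)
      (Eventually.of_forall fun x s hs =>
        bnd (fun p => κ p.2 * (Matrix.trace ((Y p.2 + (p.1 : ℂ) • L p.2).adjugate * L p.2)).re)
          z2 t M' hM' x s hs)
      (ibd M')
      (Eventually.of_forall fun x s _ => by
        have h1 := det_deriv (Y x) (L x) s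
        have h2 : HasDerivAt (fun t : ℝ => (Y x + (t : ℂ) • L x).det.re)
            (Matrix.trace ((Y x + (s : ℂ) • L x).adjugate * L x)).re s := by
          exact Complex.reCLM.hasFDerivAt.comp_hasDerivAt s h1
        exact h2.const_mul (κ x))
    refine hmain.2.congr_deriv ?_
    have e1 := hA t
    have hint : Integrable (fun x => (κ x : ℂ) *
        Matrix.trace ((Y x + (t : ℂ) • L x).adjugate * L x)) (volume.restrict T) := by
      have c3 : ContinuousOn (fun x => (κ x : ℂ) *
          Matrix.trace ((Y x + (t : ℂ) • L x).adjugate * L x)) T := by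
        have cA : ContinuousOn (fun x => Y x + (t : ℂ) • L x) T := cY.add (cL.const_smul (t : ℂ))
        exact (Complex.continuous_ofReal.comp cκ).continuousOn.mul (cont_tr cA cL)
      obtain ⟨M, hM⟩ := hKc.exists_bound_of_continuousOn (c3.mono hKT)
      refine (ibd M).mono' (c3.aestronglyMeasurable hTo.measurableSet)
        (Eventually.of_forall fun x => ?_)
      by_cases hx : x ∈ K
      · rw [indicator_of_mem hx]
        exact hM x hx
      · rw [indicator_of_notMem hx, hκ0 x hx]
        simp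
    have e2 := Complex.reCLM.integral_comp_comm hint
    rw [e1] at e2
    simp only [Complex.reCLM_apply, Complex.zero_re] at e2
    rw [← e2]
    refine integral_congr_ae (Eventually.of_forall fun x => ?_)
    simp only [Complex.re_ofReal_mul]
  have hconst := is_const_of_deriv_eq_zero (fun t => (hder t).differentiableAt)
    (fun t => (hder t).deriv) 1 0
  unfold vol pert
  simp only [Complex.ofReal_one, one_smul, Complex.ofReal_zero, zero_smul, add_zero] at hconst
  exact hconst

end Pool.Agent.Helper8.HS
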