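import Pool.Agent.Helper95.HS.GoalsB
import Pool.Agent.Helper8.HS.MOMV

/-! # Packet HS-TRI: traces are invariant functions -/

open Complex Metric Set Filter Topology MeasureTheory
open scoped ContDiff ComplexConjugate ComplexOrder Manifold Matrix

namespace Pool.Agent.Helper8.HS

open Pool.Agent.Helper95.Lin Pool.Agent.Helper16.Abund Pool.Agent.Helper10.SP
  Pool.Agent.Helper57.HS Pool.Agent.Helper95.HS
open Pool.Agent.Helper62.SP (cd_congr cdb_congr lin_exp Jm det_Jm)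

universe u v

/-- An invariant form field under a local arrow. -/
theorem arr_mat {n : ℕ} {G : Type u} {R : G → Cn n → Cn n → Prop}
    {Y : Cn n → Matrix (Fin n) (Fin n) ℂ} (hY : InvH R Y) {U : Set (Cn n)} {τ : Cn n → Cn n}
    (hτ : Arr R U τ) {x : Cn n} (hx : x ∈ U) : Y x = Jm τ x * Y (τ x) * (Jm τ x)ᴴ := by
  ext i j
  have := hY U τ hτ x hx (Pi.single i 1) (Pi.single j 1)
  rw [hermi_single] at this
  rw [← this]
  unfold hermi
  simp only [Matrix.mul_apply, Finset.sum_mul, Matrix.conjTranspose_apply]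
  rw [Finset.sum_comm]
  refine Finset.sum_congr rfl fun a _ => Finset.sum_congr rfl fun b _ => ?_
  simp only [Jm, Matrix.of_apply, Complex.star_def]
  ring

/-- Conjugation of `Y Q⁻¹`. -/
theorem conj_mul_inv {n : ℕ} {J A B : Matrix (Fin n) (Fin n) ℂ} (hJ : J.det ≠ 0)
    : (J * A * Jᴴ) * (J * B * Jᴴ)⁻¹ = J * (A * B⁻¹) * J⁻¹ := by
  have hJ' : Jᴴ.det ≠ 0 := by
    rw [Matrix.det_conjTranspose]
    exact star_ne_zero.2 hJ
  have h1 : Jᴴ * (Jᴴ)⁻¹ = 1 := Matrix.mul_nonsing_inv _ (isUnit_iff_ne_zero.2 hJ')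
  rw [Matrix.mul_inv_rev, Matrix.mul_inv_rev]
  calc J * A * Jᴴ * ((Jᴴ)⁻¹ * (B⁻¹ * J⁻¹)) = J * A * (Jᴴ * (Jᴴ)⁻¹) * B⁻¹ * J⁻¹ := by
        simp only [Matrix.mul_assoc]
    _ = J * (A * B⁻¹) * J⁻¹ := by
        rw [h1, Matrix.mul_one]
        simp only [Matrix.mul_assoc]

/-- **TRI** -/
theorem tri (hARRB : S_ARRB.{u}) (hDETI : S_DETI.{u}) (hLMID : S_LMID.{u}) : S_TRI.{u} := by
  intro n T G _ R Q hQ
  have hTo : IsOpen T := hQ.et.isOpen
  refine ⟨?_, ?_⟩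
  · intro Y sY hY
    obtain ⟨-, -, sI, -⟩ := hDETI T R Q hQ
    refine ⟨?_, ?_⟩
    · have h1 : (fun x => (Matrix.trace (Y x * (Q x)⁻¹)).re) =
          fun x => (∑ i, ∑ j, Y x i j * (Q x)⁻¹ j i).re := by
        funext x
        simp only [Matrix.trace, Matrix.diag_apply, Matrix.mul_apply]
      rw [h1]
      exact Complex.reCLM.contDiff.comp_contDiffOn
        (ContDiffOn.sum fun i _ => ContDiffOn.sum fun j _ => (sY i j).mul (sI j i))
    · intro γ x y h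
      obtain ⟨a1, a2, -⟩ := hARRB T R hQ.et
      obtain ⟨U, τ, σ, hxU, hUT, hLA, hτx, -⟩ := a1 γ x y h
      have hdet := (a2 γ U τ hLA x hxU).1
      rw [det_Jm] at hdet
      have hA : Arr R U τ := ⟨hLA.1, hLA.2.1, γ, hLA.2.2⟩
      have e1 := arr_mat hY hA hxU
      have e2 := arr_mat (R := R) (Y := Q) (fun U τ h => hQ.inv U τ h) hA hxU
      rw [hτx] at e1 e2
      simp only
      rw [e1, e2, conj_mul_inv hdet, Matrix.trace_mul_comm (Jm τ x * (Y y * (Q y)⁻¹)) (Jm τ x)⁻¹,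
        ← Matrix.mul_assoc, Matrix.nonsing_inv_mul _ (isUnit_iff_ne_zero.2 hdet), Matrix.one_mul]
  · intro κ hκ w hw
    refine (hLMID T R Q hQ κ hκ w hw.1 ?_).2.2.1
    intro U τ hτ x hx
    obtain ⟨hUo, -, γ, hγ⟩ := hτ
    have : (fun y => w (τ y)) =ᶠ[𝓝 x] w := by
      filter_upwards [hUo.mem_nhds hx] with y hy
      exact hw.2 γ y (τ y) (hγ y hy)
    exact this.fderiv_eq

end Pool.Agent.Helper8.HS
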