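import Pool.Agent.Helper10.HS.GoalsL
import Pool.Agent.Helper31.SP.SPEC

/-! # Packet HS-FOLZ: the kernel foliation for `k = 0` -/

open Complex Metric Set Filter Topology MeasureTheory
open scoped ContDiff ComplexConjugate ComplexOrder Manifold Matrix

namespace Pool.Agent.Helper8.HS

open Pool.Agent.Helper95.Lin Pool.Agent.Helper16.Abund Pool.Agent.Helper92.Orb
open Pool.Agent.Helper10.SP Pool.Agent.Helper95.RK Pool.Agent.Helper15.RK
open Pool.Agent.Helper57.HS Pool.Agent.Helper10.RK Pool.Agent.Helper10.HS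

universe u v

/-- **FOLZ** -/
theorem folz : S_FOLZ.{u, v} := by
  intro b G M _ _ _ _ _ _ _ h v D
  have hker : ∀ (V : Set (Cn (b + 0))) (ψ : Cn (b + 0) → M), Par (b + 0) ψ V → ∀ x ∈ V, ∀ e,
      lev (lpot (b + 0) v ψ) x e = 0 ↔ base (b := b) (k := 0) e = 0 := by
    intro V ψ hψ x hx e
    obtain ⟨-, S, hS, hS'⟩ := D.rank V ψ hψ x hx
    rw [hS' e, Submodule.finrank_eq_zero.1 hS, Submodule.mem_bot]
    exact Iff.rfl
  refine ⟨⟨D.kah.1, fun V ψ hψ => (D.kah.2 V ψ hψ).1⟩, D.inv, ?_, ?_⟩
  · intro p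
    set χ := chartAt (Fin (b + 0) → ℂ) p with hχ
    have hps : p ∈ χ.source := mem_chart_source _ p
    have hx₀ : χ p ∈ χ.target := χ.map_source hps
    have hPar₀ : Par (b + 0) (χ.symm : Cn (b + 0) → M) χ.target :=
      ⟨⟨χ.open_target, mdiff_chart_symm p⟩, fun z hz => jac_chart_symm_ne_zero p hz⟩
    obtain ⟨r, hr, hball⟩ := Metric.isOpen_iff.1 χ.open_target _ hx₀
    have hset : prodK (ball (0 : Cn b) r) (ball (0 : Cn 0) r) = ball (0 : Cn (b + 0)) r := by
      ext x
      constructor
      · rintro ⟨h1, -⟩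
        exact h1
      · intro h1
        refine ⟨h1, ?_⟩
        rw [Subsingleton.elim (fib (b := b) (k := 0) x) 0]
        exact mem_ball_self hr
    have hm : MapsTo (fun x : Cn (b + 0) => x + χ p) (ball (0 : Cn (b + 0)) r) χ.target := by
      intro x hx
      refine hball ?_
      rw [mem_ball, dist_eq_norm, add_sub_cancel_right]
      rw [mem_ball, dist_eq_norm, sub_zero] at hx
      exact hx
    have hder : ∀ x : Cn (b + 0), fderiv ℂ (fun x : Cn (b + 0) => x + χ p) x =
        ContinuousLinearMap.id ℂ (Cn (b + 0)) := by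
      intro x
      rw [fderiv_add_const]
      exact fderiv_fun_id
    have hpar := (Pool.Agent.Helper31.SP.par_comp hPar₀ isOpen_ball
      (σ := fun x : Cn (b + 0) => x + χ p) (by fun_prop) hm (fun x _ => by
        rw [hder x]
        simp [ContinuousLinearMap.det])).1
    refine ⟨r, hr, χ.symm ∘ fun x : Cn (b + 0) => x + χ p, ⟨?_, ?_⟩, ?_, ?_⟩
    · rw [hset]
      exact hpar
    · intro x hx e
      rw [hset] at hx
      exact hker _ _ hpar x hx e
    · rw [hset]
      intro x hx y hy hxy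
      have := χ.symm.injOn (hm hx) (hm hy) hxy
      exact add_right_cancel this
    · simp only [Function.comp_apply, zero_add]
      exact χ.left_inv hps
  · intro U Δ ψ hU hΔ hF
    refine ⟨fun i => i.elim0, fun x _ => ?_, fun x _ i => i.elim0, fun x _ i => i.elim0,
      fun x _ i => i.elim0⟩
    rw [Subsingleton.elim (gm (b := b) (k := 0) h ψ x) 1]
    exact Matrix.PosDef.one

end Pool.Agent.Helper8.HS
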