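import Pool.Agent.Helper36.HS.GoalsL
import Pool.Agent.Helper9.SP.ReglA
import Pool.Agent.Helper8.SP.DIVC
import Pool.Agent.Helper45.Lin.KMain

/-! # Packet HS-CDN: from `cdb_l` to `cd_l` -/

open Complex Metric Set Filter Topology MeasureTheory
open scoped ContDiff ComplexConjugate ComplexOrder Manifold

namespace Pool.Agent.Helper8.HS

open Pool.Agent.Helper95.Lin Pool.Agent.Helper16.Abund Pool.Agent.Helper92.Orb
  Pool.Agent.Helper10.SP Pool.Agent.Helper36.HS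
open Pool.Agent.Helper9.SP (cd_contDiff cdb_contDiff cd_cs cdb_cs cd_sub cdb_sub cdb_mul)

variable {n : ℕ}

theorem integral_cdb' {F : Cn n → ℂ} (hF : ContDiff ℝ ∞ F) (hc : HasCompactSupport F)
    (l : Fin n) : Integrable (cdb l F) ∧ ∫ x, cdb l F x = 0 := by
  obtain ⟨h1, h2⟩ := Pool.Agent.Helper8.SP.integral_dirC hF hc (Pi.single l 1)
  obtain ⟨h3, h4⟩ := Pool.Agent.Helper8.SP.integral_dirC hF hc (Pi.single l I)
  have h5 : Integrable (fun x => I * fderiv ℝ F x (Pi.single l I)) := h3.const_mul I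
  refine ⟨h1.add h5, ?_⟩
  unfold cdb
  rw [integral_add h1 h5, h2, integral_const_mul, h4, mul_zero, add_zero]

theorem int_norm_sq {g : Cn n → ℂ} (hg : Continuous g) (hc : HasCompactSupport g) :
    Integrable fun x => ‖g x‖ ^ 2 := by
  refine (hg.norm.pow 2).integrable_of_hasCompactSupport ?_
  refine HasCompactSupport.of_support_subset_isCompact hc fun x hx => subset_tsupport _ ?_
  rw [Function.mem_support] at hx ⊢
  intro h0
  apply hx
  simp [h0]

/-- The two square integrals agree. -/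
theorem integral_cd_cdb (hW : S_WIRT) {w : Cn n → ℂ} (hw : ContDiff ℝ ∞ w)
    (hc : HasCompactSupport w) (l : Fin n) :
    ∫ x, ‖cd l w x‖ ^ 2 = ∫ x, ‖cdb l w x‖ ^ 2 := by
  set v : Cn n → ℂ := fun y => conj (w y) with hv
  have sv : ContDiff ℝ ∞ v := Complex.conjCLE.contDiff.comp hw
  have cv : HasCompactSupport v := by
    refine HasCompactSupport.of_support_subset_isCompact hc fun x hx => subset_tsupport _ ?_
    rw [Function.mem_support] at hx ⊢
    intro h0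
    apply hx
    simp [hv, h0]
  have c1 := cdb_contDiff sv l
  have c2 := cd_contDiff sv l
  set F : Cn n → ℂ := fun y => w y * cdb l v y with hF
  set G : Cn n → ℂ := fun y => w y * cd l v y with hG
  have sF : ContDiff ℝ ∞ F := hw.mul c1
  have sG : ContDiff ℝ ∞ G := hw.mul c2
  have kF : HasCompactSupport F := hc.mul_right
  have kG : HasCompactSupport G := hc.mul_right
  obtain ⟨i1, i2⟩ := Pool.Agent.Helper8.SP.integral_cd sF kF l
  obtain ⟨i3, i4⟩ := integral_cdb' sG kG l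
  have hwu := hw.contDiffOn (s := univ)
  have hvu := sv.contDiffOn (s := univ)
  have key : ∀ x, ((‖cd l w x‖ ^ 2 : ℝ) : ℂ) - ((‖cdb l w x‖ ^ 2 : ℝ) : ℂ) =
      cd l F x - cdb l G x := by
    intro x
    obtain ⟨-, -, -, k4, -, -⟩ := hW univ isOpen_univ w w hwu hwu
    obtain ⟨k5, k6⟩ := k4 l x (mem_univ _)
    obtain ⟨-, -, k7, -, -, -⟩ := hW univ isOpen_univ w (cdb l v) hwu c1.contDiffOn
    obtain ⟨-, -, k8, -, -, -⟩ := hW univ isOpen_univ w (cd l v) hwu c2.contDiffOn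
    obtain ⟨-, -, -, -, k9, -⟩ := hW univ isOpen_univ v v hvu hvu
    rw [hF, hG, (k7 l x (mem_univ _)).1, (k8 l x (mem_univ _)).2,
      (k9 l l x (mem_univ _)).2.2]
    have e1 : cd l v x = conj (cdb l w x) := k5
    have e2 : cdb l v x = conj (cd l w x) := k6
    rw [e1, e2, ← Complex.normSq_eq_norm_sq, ← Complex.normSq_eq_norm_sq, Complex.normSq_eq_conj_mul_self,
      Complex.normSq_eq_conj_mul_self]
    ring
  have j1 : Integrable fun x => ‖cd l w x‖ ^ 2 :=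
    int_norm_sq (cd_contDiff hw l).continuous (cd_cs hc l)
  have j2 : Integrable fun x => ‖cdb l w x‖ ^ 2 :=
    int_norm_sq (cdb_contDiff hw l).continuous (cdb_cs hc l)
  have h1 : ∫ x, (((‖cd l w x‖ ^ 2 : ℝ) : ℂ) - ((‖cdb l w x‖ ^ 2 : ℝ) : ℂ)) = 0 := by
    simp only [key]
    rw [integral_sub i1 i3, i2, i4, sub_zero]
  have g1 : ∫ x, (((‖cd l w x‖ ^ 2 : ℝ) : ℂ)) = ((∫ x, ‖cd l w x‖ ^ 2 : ℝ) : ℂ) := integral_ofReal
  have g2 : ∫ x, (((‖cdb l w x‖ ^ 2 : ℝ) : ℂ)) = ((∫ x, ‖cdb l w x‖ ^ 2 : ℝ) : ℂ) :=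
    integral_ofReal
  have g3 := integral_sub (j1.ofReal (𝕜 := ℂ)) (j2.ofReal (𝕜 := ℂ))
  have h2 : ((∫ x, ‖cd l w x‖ ^ 2 : ℝ) : ℂ) - ((∫ x, ‖cdb l w x‖ ^ 2 : ℝ) : ℂ) = 0 := by
    rw [← g1, ← g2]
    exact g3.symm.trans h1
  rw [sub_eq_zero] at h2
  exact_mod_cast h2

theorem sq_add_le (a b : ℝ) : (a + b) ^ 2 ≤ 2 * a ^ 2 + 2 * b ^ 2 := by
  nlinarith [sq_nonneg (a - b)]

/-- **CDN** -/
theorem cdn (hWIRT : S_WIRT) (hMOL2 : S_MOL2) : S_CDN := by
  intro n T hT f hf l hMC C C₁ hC hC₁ hCC₁ hC₁T δ hδ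
  obtain ⟨C₂, hC₂, h12, h2int⟩ := exists_compact_between hC isOpen_interior hCC₁
  obtain ⟨C₃, hC₃, h13, h3int⟩ := exists_compact_between hC isOpen_interior h12
  obtain ⟨χ, hχ, hχ0, hχ1, hχC⟩ :=
    Pool.Agent.Helper45.Lin.exists_cutoff isOpen_interior hC₃ h3int
  set χc : Cn n → ℂ := fun y => (χ y : ℂ) with hχc
  have sχ : ContDiff ℝ ∞ χc := Complex.ofRealCLM.contDiff.comp hχ.1
  have kχ : HasCompactSupport χc := by
    refine HasCompactSupport.of_support_subset_isCompact hχ.2.1 fun x hx => subset_tsupport _ ?_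
    rw [Function.mem_support] at hx ⊢
    intro h0
    apply hx
    simp [hχc, h0]
  have hχ2 : ∀ x, x ∉ C₂ → χ x = 0 := fun x hx => by
    refine image_eq_zero_of_notMem_tsupport fun h => hx ?_
    exact interior_subset (hχ.2.2 h)
  obtain ⟨M, hM⟩ := (cdb_cs kχ l).exists_bound_of_continuous (cdb_contDiff sχ l).continuous
  have hM0 : 0 ≤ M := (norm_nonneg _).trans (hM 0)
  obtain ⟨f₁, hf₁⟩ : ∃ f₁ : Cn n → ℂ, f₁ = indicator C₁ f := ⟨_, rfl⟩
  have hf1 : MemLp f₁ 2 volume := by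
    rw [hf₁]
    exact (memLp_indicator_iff_restrict hC₁.measurableSet).2 (hf C₁ hC₁T hC₁)
  obtain ⟨hm1, hm2⟩ := hMOL2 f₁ hf1
  obtain ⟨ε₁, hε₁, h1⟩ := hMC C₂ C₁ hC₂ hC₁ h2int hC₁T (δ / 4) (by positivity)
  set δ' : ℝ := δ / (16 * (M ^ 2 + 1)) with hδ'
  have hδ'pos : 0 < δ' := by positivity
  have h2 := (tendsto_order.1 hm2).2 δ' hδ'pos
  rw [eventually_nhdsWithin_iff, Metric.eventually_nhds_iff] at h2
  obtain ⟨ε₂, hε₂, h3⟩ := h2
  refine ⟨min ε₁ ε₂, lt_min hε₁ hε₂, ?_⟩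
  intro ε ε' hε0 hε hε'0 hε'
  have a1 := h1 ε ε' hε0 (hε.trans_le (min_le_left _ _)) hε'0 (hε'.trans_le (min_le_left _ _))
  have dist0 : ∀ e : ℝ, 0 < e → e < min ε₁ ε₂ → dist e 0 < ε₂ := by
    intro e he he'
    rw [Real.dist_eq, sub_zero, abs_of_pos he]
    exact he'.trans_le (min_le_right _ _)
  have a2 := h3 (dist0 ε hε0 hε) hε0
  have a3 := h3 (dist0 ε' hε'0 hε') hε'0
  rw [← hf₁] at a1 ⊢
  have dzt : ∀ g : Cn n → ℂ, dz (l, true) g = cdb l g := fun g => by simp [dz]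
  have dzf : ∀ g : Cn n → ℂ, dz (l, false) g = cd l g := fun g => by simp [dz]
  simp only [dzt] at a1
  simp only [dzf]
  obtain ⟨s1, L1, -⟩ := hm1 ε hε0
  obtain ⟨s2, L2, -⟩ := hm1 ε' hε'0
  set p := mollc f₁ ε with hp
  set q := mollc f₁ ε' with hq
  set u : Cn n → ℂ := fun y => p y - q y with hu
  have su : ContDiff ℝ ∞ u := s1.sub s2
  have Lu : MemLp u 2 volume := L1.sub L2
  have dA : ∀ {g : Cn n → ℂ}, ContDiff ℝ ∞ g → ∀ x, DifferentiableAt ℝ g x := fun hg x =>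
    hg.differentiable (by simp) x
  have e1 : ∀ x, cd l p x - cd l q x = cd l u x := fun x => (cd_sub (dA s1 x) (dA s2 x) l).symm
  have e2 : ∀ x, cdb l p x - cdb l q x = cdb l u x := fun x =>
    (cdb_sub (dA s1 x) (dA s2 x) l).symm
  simp only [e1]
  simp only [e2] at a1
  set w : Cn n → ℂ := fun y => χc y * u y with hw
  have sw : ContDiff ℝ ∞ w := sχ.mul su
  have kw : HasCompactSupport w := kχ.mul_right
  have b1 : ∫ x in C, ‖cd l u x‖ ^ 2 = ∫ x in C, ‖cd l w x‖ ^ 2 := by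
    refine setIntegral_congr_fun hC.measurableSet fun x hx => ?_
    have : w =ᶠ[𝓝 x] u := by
      filter_upwards [isOpen_interior.mem_nhds (h13 hx)] with y hy
      simp only [hw, hχc]
      rw [hχC y (interior_subset hy)]
      simp
    exact congrArg (fun z : ℂ => ‖z‖ ^ 2) (Pool.Agent.Helper9.SP.cd_congr this l).symm
  have b2 : ∫ x in C, ‖cd l w x‖ ^ 2 ≤ ∫ x, ‖cd l w x‖ ^ 2 :=
    setIntegral_le_integral (int_norm_sq (cd_contDiff sw l).continuous (cd_cs kw l))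
      (Eventually.of_forall fun x => sq_nonneg _)
  have iu : Integrable fun x => ‖u x‖ ^ 2 := (memLp_two_iff_integrable_sq_norm Lu.1).1 Lu
  have ic : Integrable (C₂.indicator fun x => ‖cdb l u x‖ ^ 2) := by
    rw [integrable_indicator_iff hC₂.measurableSet]
    exact ((cdb_contDiff su l).continuous.norm.pow 2).continuousOn.integrableOn_compact hC₂
  have b3 : ∫ x, ‖cdb l w x‖ ^ 2 ≤
      ∫ x, (2 * (C₂.indicator (fun x => ‖cdb l u x‖ ^ 2) x) + 2 * M ^ 2 * ‖u x‖ ^ 2) := by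
    refine integral_mono (int_norm_sq (cdb_contDiff sw l).continuous (cdb_cs kw l))
      ((ic.const_mul 2).add (iu.const_mul _)) fun x => ?_
    have e3 : cdb l w x = χc x * cdb l u x + u x * cdb l χc x := cdb_mul (dA sχ x) (dA su x) l
    rw [e3]
    have n1 : ‖χc x * cdb l u x + u x * cdb l χc x‖ ≤ χ x * ‖cdb l u x‖ + ‖u x‖ * M := by
      refine (norm_add_le _ _).trans ?_
      rw [norm_mul, norm_mul]
      have : ‖χc x‖ = χ x := by
        simp only [hχc]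
        rw [Complex.norm_real, Real.norm_of_nonneg (hχ0 x)]
      rw [this]
      have := mul_le_mul_of_nonneg_left (hM x) (norm_nonneg (u x))
      linarith
    have n2 := pow_le_pow_left₀ (norm_nonneg _) n1 2
    refine n2.trans ((sq_add_le _ _).trans ?_)
    by_cases hx : x ∈ C₂
    · rw [indicator_of_mem hx]
      have n3 : (χ x * ‖cdb l u x‖) ^ 2 ≤ ‖cdb l u x‖ ^ 2 := by
        refine pow_le_pow_left₀ (mul_nonneg (hχ0 x) (norm_nonneg _)) ?_ 2
        exact mul_le_of_le_one_left (norm_nonneg _) (hχ1 x)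
      have : (‖u x‖ * M) ^ 2 = M ^ 2 * ‖u x‖ ^ 2 := by ring
      rw [this]
      linarith
    · rw [indicator_of_notMem hx, hχ2 x hx]
      have : (‖u x‖ * M) ^ 2 = M ^ 2 * ‖u x‖ ^ 2 := by ring
      rw [this]
      linarith
  rw [integral_add (ic.const_mul 2) (iu.const_mul _), integral_const_mul, integral_const_mul,
    integral_indicator hC₂.measurableSet] at b3
  have hsub1 : MemLp (fun x => p x - f₁ x) 2 volume := L1.sub hf1
  have hsub2 : MemLp (fun x => q x - f₁ x) 2 volume := L2.sub hf1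
  have i1 : Integrable fun x => ‖p x - f₁ x‖ ^ 2 :=
    (memLp_two_iff_integrable_sq_norm hsub1.1).1 hsub1
  have i2 : Integrable fun x => ‖q x - f₁ x‖ ^ 2 :=
    (memLp_two_iff_integrable_sq_norm hsub2.1).1 hsub2
  have b4 : ∫ x, ‖u x‖ ^ 2 ≤ ∫ x, (2 * ‖p x - f₁ x‖ ^ 2 + 2 * ‖q x - f₁ x‖ ^ 2) := by
    refine integral_mono iu ((i1.const_mul 2).add (i2.const_mul 2)) fun x => ?_
    have h1 : p x - q x = (p x - f₁ x) - (q x - f₁ x) := by ring
    have h2 : ‖u x‖ ≤ ‖p x - f₁ x‖ + ‖q x - f₁ x‖ := by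
      simp only [hu]
      rw [h1]
      exact norm_sub_le _ _
    exact (pow_le_pow_left₀ (norm_nonneg _) h2 2).trans (sq_add_le _ _)
  rw [integral_add (i1.const_mul 2) (i2.const_mul 2), integral_const_mul,
    integral_const_mul] at b4
  have b5 : ∫ x, ‖u x‖ ^ 2 ≤ 4 * δ' := by linarith
  have b6 : 2 * M ^ 2 * ∫ x, ‖u x‖ ^ 2 ≤ 2 * M ^ 2 * (4 * δ') :=
    mul_le_mul_of_nonneg_left b5 (by positivity)
  have b7 : 2 * M ^ 2 * (4 * δ') ≤ δ / 2 := by
    rw [hδ', mul_div_assoc', mul_div_assoc', div_le_iff₀ (by positivity)]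
    nlinarith [sq_nonneg M]
  have b8 := integral_cd_cdb hWIRT sw kw l
  rw [b1]
  linarith

end Pool.Agent.Helper8.HS
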